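import Pool.Agent.SHA.Stmts

/-!
# SHA, row REM: deleting the excess
-/

set_option autoImplicit false

universe u

namespace Pool.Agent.SHA.H67

open Pool.Agent.SHA

open Classical in
theorem rem : REMStmt.{u} := by
  intro U T Q q
  have hex : ∀ O : Set U, ∃ R ⊆ T.filter (fun f => f ∈ O),
      R.card = (T.filter (fun f => f ∈ O)).card - q := fun O =>
    Finset.exists_subset_card_eq (Nat.sub_le _ _)
  choose R hR1 hR2 using hex
  refine ⟨T \ Q.biUnion R, Finset.sdiff_subset, ?_, ?_⟩
  · intro O hO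
    have h1 : (T \ Q.biUnion R).filter (fun f => f ∈ O) ⊆ (T.filter (fun f => f ∈ O)) \ R O := by
      intro f hf
      rw [Finset.mem_filter, Finset.mem_sdiff] at hf
      rw [Finset.mem_sdiff, Finset.mem_filter]
      exact ⟨⟨hf.1.1, hf.2⟩, fun h => hf.1.2 (Finset.mem_biUnion.2 ⟨O, hO, h⟩)⟩
    have h2 := Finset.card_le_card h1
    rw [Finset.card_sdiff_of_subset (hR1 O), hR2 O] at h2
    omega
  · have h1 : (Q.biUnion R).card ≤ ∑ O ∈ Q, (R O).card := Finset.card_biUnion_le
    have h2 : ∑ O ∈ Q, (R O).card = ∑ O ∈ Q, ((T.filter (fun f => f ∈ O)).card - q) :=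
      Finset.sum_congr rfl fun O _ => hR2 O
    have h3 := Finset.le_card_sdiff (Q.biUnion R) T
    omega

end Pool.Agent.SHA.H67
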